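import Pool.Agent.W910.FC.Product

/-!
# Martin's axiom for `ℵ₁` dense sets and `𝔠 ≤ ℵ₂` can be forced

The forcing notion is the product of the iteration which forces Martin's axiom and of the preorder
of the bounded partial functions from `ω₂` to the names of the iteration for relations on the
natural numbers.
-/

set_option autoImplicit false

namespace Pool.Agent.W910.FC

open Cardinal Pool.Agent.Helper669.Forcing Pool.Agent.W684.FM

section

variable (W V : Type) [LinearOrder W]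

/-- bounded partial functions from `W` to `V` -/
structure Coll : Type where
  g : W → Option V
  bd : ∃ b, ∀ ξ, b ≤ ξ → g ξ = none

variable {W V}

instance : Preorder (Coll W V) where
  le q r := ∀ ξ v, r.g ξ = some v → q.g ξ = some v
  le_refl q := fun _ _ h => h
  le_trans q r s h1 h2 := fun ξ v h => h1 ξ v (h2 ξ v h)

theorem Coll.le_def {q r : Coll W V} : q ≤ r ↔ ∀ ξ v, r.g ξ = some v → q.g ξ = some v := Iff.rfl

theorem Coll.closed (hW : Bdd Om1 W) : Closed2 (Coll W V) := by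
  classical
  intro I C q0 hC hq0
  -- the members are pairwise comparable
  have hcomp : ∀ i ∈ I, ∀ j ∈ I, ∀ ξ v w, (C i).g ξ = some v → (C j).g ξ = some w → v = w := by
    intro i hi j hj ξ v w h1 h2
    rcases lt_trichotomy i j with h | h | h
    · have := hC i hi j hj h ξ v h1
      rw [h2] at this
      exact (Option.some.inj this).symm
    · subst h
      rw [h1] at h2
      exact Option.some.inj h2
    · have := hC j hj i hi h ξ w h2
      rw [h1] at this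
      exact Option.some.inj this
  choose b hb using fun i => (C i).bd
  obtain ⟨b0, hb0⟩ := q0.bd
  obtain ⟨α, hα⟩ := hW (Set.range b) (mk_range_le)
  let g : W → Option V := fun ξ =>
    if h : ∃ v, (∃ i ∈ I, (C i).g ξ = some v) ∨ q0.g ξ = some v then some h.choose else none
  have hg : ∀ ξ v, ((∃ i ∈ I, (C i).g ξ = some v) ∨ q0.g ξ = some v) → g ξ = some v := by
    intro ξ v hv
    have h : ∃ v, (∃ i ∈ I, (C i).g ξ = some v) ∨ q0.g ξ = some v := ⟨v, hv⟩
    simp only [g, dif_pos h]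
    congr 1
    have hs := h.choose_spec
    rcases hv with ⟨i, hi, hv⟩ | hv
    · rcases hs with ⟨j, hj, hs⟩ | hs
      · exact hcomp j hj i hi ξ _ _ hs hv
      · have := hq0 i hi ξ _ hs
        rw [hv] at this
        exact (Option.some.inj this).symm
    · rcases hs with ⟨j, hj, hs⟩ | hs
      · have := hq0 j hj ξ _ hv
        rw [hs] at this
        exact Option.some.inj this
      · exact Option.some.inj (hs.symm.trans hv)
  refine ⟨⟨g, max α b0, fun ξ hξ => ?_⟩, fun ξ v hv => hg ξ v (Or.inr hv),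
    fun i hi ξ v hv => hg ξ v (Or.inl ⟨i, hi, hv⟩)⟩
  have h : ¬ ∃ v, (∃ i ∈ I, (C i).g ξ = some v) ∨ q0.g ξ = some v := by
    rintro ⟨v, ⟨i, _, hv⟩ | hv⟩
    · rw [hb i ξ ((hα _ ⟨i, rfl⟩).le.trans ((le_max_left _ _).trans hξ))] at hv
      exact absurd hv (by simp)
    · rw [hb0 ξ ((le_max_right _ _).trans hξ)] at hv
      exact absurd hv (by simp)
  simp only [g, dif_neg h]

/-- extending a condition at a new place -/
theorem Coll.extend [NoMaxOrder W] (q : Coll W V) (ξ : W) (hξ : q.g ξ = none) (v : V) :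
    ∃ r ≤ q, r.g ξ = some v := by
  classical
  obtain ⟨b, hb⟩ := q.bd
  obtain ⟨c, hc⟩ := exists_gt ξ
  refine ⟨⟨Function.update q.g ξ (some v), max b c, fun η hη => ?_⟩, ?_, ?_⟩
  · have h1 : η ≠ ξ := fun h => absurd (hc.trans_le ((le_max_right _ _).trans hη)) (by simp [h])
    rw [Function.update_of_ne h1]
    exact hb η ((le_max_left _ _).trans hη)
  · intro η w hw
    have h1 : η ≠ ξ := fun h => by
      rw [h, hξ] at hw
      exact absurd hw (by simp)
    show Function.update q.g ξ (some v) η = some w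
    rw [Function.update_of_ne h1]
    exact hw
  · exact Function.update_self _ _ _

end

section

variable {W : Type} [LinearOrder W] {P : Type} [Preorder P]

/-- the names for the reals enumerated by the generic function -/
def enum (y : W) (n m : ℕ) : Set (Coll W (ℕ → ℕ → Set P) × P) :=
  {s | ∃ N, s.1.g y = some N ∧
    ((s.2 ∈ IsFun N ∧ s.2 ∈ meets (N n m)) ∨ (s.2 ∈ fnot (IsFun N) ∧ m = 0))}

theorem down_enum (y : W) (n m : ℕ) : Down (enum (P := P) y n m) := by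
  rintro ⟨g, p⟩ ⟨N, hN, h⟩ ⟨g', p'⟩ ⟨hg, hp⟩
  refine ⟨N, hg _ _ hN, ?_⟩
  rcases h with ⟨h1, h2⟩ | ⟨h1, h2⟩
  · exact Or.inl ⟨down_IsFun N _ h1 _ hp, down_meets _ _ h2 _ hp⟩
  · exact Or.inr ⟨down_fnot _ _ h1 _ hp, h2⟩

theorem enum_isFun [NoMaxOrder W] (y : W) (s : Coll W (ℕ → ℕ → Set P) × P) :
    s ∈ IsFun (enum (P := P) y) := by
  refine ⟨fun n => ?_, fun n m m' => ?_⟩
  · rw [mem_fex]
    rintro ⟨g1, p1⟩ _
    obtain ⟨g2, hg2, N, hN⟩ : ∃ g2 ≤ g1, ∃ N, g2.g y = some N := by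
      rcases h : g1.g y with _ | N
      · obtain ⟨g2, h1, h2⟩ := g1.extend y h (fun _ _ => ∅)
        exact ⟨g2, h1, _, h2⟩
      · exact ⟨g1, le_rfl, N, h⟩
    by_cases hdec : ∃ p2 ≤ p1, p2 ∈ IsFun N
    · obtain ⟨p2, hp2, h2⟩ := hdec
      obtain ⟨p3, hp3, m, hm⟩ := mem_fex.1 (h2.1 n) p2 le_rfl
      exact ⟨(g2, p3), ⟨hg2, hp3.trans hp2⟩, m, meets_of_mem
        ⟨N, hN, Or.inl ⟨down_IsFun N _ h2 _ hp3, hm⟩⟩⟩
    · push Not at hdec
      exact ⟨(g2, p1), ⟨hg2, le_rfl⟩, 0, meets_of_mem ⟨N, hN, Or.inr ⟨hdec, rfl⟩⟩⟩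
  · rw [mem_fimp]
    rintro s1 _ ⟨h1, h2⟩
    refine ⟨s1, le_rfl, ?_⟩
    obtain ⟨s2, hs2, h3⟩ := exists_of_meets (down_enum y n m) h1
    obtain ⟨s3, hs3, h4⟩ := exists_of_meets (down_enum y n m') (down_meets _ _ h2 _ hs2)
    have h5 := down_enum y n m _ h3 _ hs3
    obtain ⟨N, hN, h6⟩ := h4
    obtain ⟨N', hN', h7⟩ := h5
    rw [hN] at hN'
    obtain rfl := Option.some.inj hN'
    rw [mem_fground]
    rcases h6 with ⟨h6, h6'⟩ | ⟨h6, h6'⟩
    · rcases h7 with ⟨h7, h7'⟩ | ⟨h7, _⟩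
      · exact IsFun.unique h6 h7' h6'
      · exact absurd h6 (h7 _ le_rfl)
    · rcases h7 with ⟨h7, _⟩ | ⟨_, h7'⟩
      · exact absurd h7 (h6 _ le_rfl)
      · rw [h7', h6']

theorem continuumLe_prod [NoMaxOrder W] (hQ : Closed2 (Coll W (ℕ → ℕ → Set P)))
    (hP : PCCC P) (s : Coll W (ℕ → ℕ → Set P) × P) :
    s ∈ ContinuumLe (Coll W (ℕ → ℕ → Set P) × P) W := by
  refine mem_fex_of_mem (fun y => enum y) (down_fand (down_fall fun y => down_IsFun _)
    (down_fall fun x => down_fimp _ _)) ⟨fun y => enum_isFun y s, fun x => ?_⟩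
  rw [mem_fimp]
  rintro ⟨g1, p1⟩ _ hx
  obtain ⟨g2, hg2, x', hx'⟩ := exists_names hQ hP (ι := ℕ × ℕ)
    ((Cardinal.mk_le_aleph0).trans (Cardinal.aleph0_le_aleph 1)) (fun i => x i.1 i.2) g1
  obtain ⟨b, hb⟩ := g2.bd
  obtain ⟨g3, hg3, hg3b⟩ := g2.extend b (hb b le_rfl) (fun n m => x' (n, m))
  refine ⟨(g3, p1), ⟨hg3.trans hg2, le_rfl⟩, ?_⟩
  refine mem_fex_of_mem b (down_SameReal _ _) ?_
  have hfun : p1 ∈ IsFun fun n m => x' (n, m) := by
    have t : Tr g2 (IsFun x) (IsFun fun n m => x' (n, m)) := Tr.IsFun fun n m => hx' (n, m)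
    exact (t g2 le_rfl p1).1 (down_IsFun x _ hx _ ⟨hg2, le_rfl⟩)
  intro n a c
  rw [mem_fimp]
  rintro s3 hs3 ⟨h1, h2⟩
  refine ⟨s3, le_rfl, ?_⟩
  rw [mem_fground]
  obtain ⟨s4, hs4, N, hN, h3⟩ := exists_of_meets (down_enum b n c) h2
  have hle : s4.1 ≤ g3 := le_trans hs4.1 hs3.1
  have hple : s4.2 ≤ p1 := le_trans hs4.2 hs3.2
  have h4 := hle _ _ hg3b
  rw [hN] at h4
  obtain rfl := Option.some.inj h4
  rcases h3 with ⟨h5, h6⟩ | ⟨h5, _⟩
  · have h7 : s4 ∈ meets (x n a) := down_meets _ _ h1 _ hs4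
    have h8 : s4.2 ∈ meets (x' (n, a)) :=
      (hx' (n, a) s4.1 (le_trans hle hg3) s4.2).1 h7
    exact IsFun.unique h5 h8 h6
  · exact absurd (down_IsFun _ _ hfun _ hple) (h5 _ le_rfl)

theorem continuumLe_congr {P : Type} [Preorder P] {Y Y' : Type} (e : Y' ≃ Y) {p : P}
    (h : p ∈ ContinuumLe P Y) : p ∈ ContinuumLe P Y' := by
  rw [ContinuumLe, mem_fex] at h ⊢
  intro q hq
  obtain ⟨r, hr, E, h1, h2⟩ := h q hq
  refine ⟨r, hr, fun y => E (e y), fun y => h1 (e y), fun x => ?_⟩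
  have h3 := h2 x
  rw [mem_fimp] at h3 ⊢
  intro s hs hx
  obtain ⟨t, ht, h4⟩ := h3 s hs hx
  refine ⟨t, ht, ?_⟩
  rw [mem_fex] at h4 ⊢
  intro u hu
  obtain ⟨v, hv, y, hy⟩ := h4 u hu
  refine ⟨v, hv, e.symm y, ?_⟩
  show v ∈ SameReal x (E (e (e.symm y)))
  rw [Equiv.apply_symm_apply]
  exact hy

end

/-- Martin's axiom for `ℵ₁` dense sets and `𝔠 ≤ ℵ₂` can be forced (with preservation of `ω₁`),
over every ground model. -/
theorem exists_forcing : ∃ (P : Type) (_ : Preorder P), Nonempty P ∧ ∀ p : P,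
    p ∈ OmegaOnePreserved P ∧ p ∈ MartinHolds P Om1 ∧
      p ∈ ContinuumLe P (ℵ_ 2 : Cardinal.{0}).out := by
  let W : Type := (Order.succ #Om1).ord.ToType
  let P0 : Type := PP Om1 W
  have hW : Bdd Om1 W := bdd_succ Om1
  have hNM : NoMaxOrder W := by
    constructor
    intro a
    obtain ⟨b, hb⟩ := hW {a} (by
      rw [mk_singleton, Cardinal.mk_ord_toType]
      exact Cardinal.one_lt_aleph0.le.trans (Cardinal.aleph0_le_aleph 1))
    exact ⟨b, hb a rfl⟩
  have hWne : Nonempty W := by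
    obtain ⟨b, _⟩ := hW ∅ (by simp)
    exact ⟨b⟩
  have hQ : Closed2 (Coll W (ℕ → ℕ → Set P0)) := Coll.closed hW
  have hP : PCCC P0 := pccc
  have hcard : #W = #(ℵ_ 2 : Cardinal.{0}).out := by
    rw [Cardinal.mk_ord_toType, Cardinal.mk_out, Cardinal.mk_ord_toType, Cardinal.succ_aleph]
    have : (1 : Ordinal.{0}) + 1 = 2 := one_add_one_eq_two
    rw [this]
  obtain ⟨e⟩ := Cardinal.eq.1 hcard
  refine ⟨Coll W (ℕ → ℕ → Set P0) × P0, inferInstance, ⟨?_⟩, fun s =>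
    ⟨omegaOne_prod hQ hP s, martinHolds_prod hQ hP (fun p => martinHolds hW p) s,
      continuumLe_congr e.symm (continuumLe_prod hQ hP s)⟩⟩
  exact (⟨fun _ => none, hWne.some, fun _ _ => rfl⟩, ⟨∅, valid_empty _⟩)

end Pool.Agent.W910.FC
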