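import Pool.Agent.W684.FM.Ambient

/-!
# The product of a ccc preorder and an `ℵ₂`-closed preorder

`P` satisfies the countable chain condition and every decreasing sequence in `Q` whose length is
at most `ω₁` has a lower bound. Then every `Q × P`-name for a family of `ℵ₁` truth values is, below
a condition in `Q`, the same as a `P`-name. Hence Martin's axiom for `ℵ₁` dense sets, if forced by
`P`, is forced by `Q × P`.
-/

set_option autoImplicit false

namespace Pool.Agent.W910.FC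

open Cardinal Pool.Agent.Helper669.Forcing Pool.Agent.W684.FM

section Rec

variable {S : Type}

theorem exists_rec (rel : S → S → Prop) (G : Om1 → S → Prop) [Nonempty S]
    (h : ∀ (i : Om1) (F : Om1 → S), (∀ j, j < i → G j (F j)) →
      (∀ j k, j < k → k < i → rel (F j) (F k)) → ∃ s, G i s ∧ ∀ j, j < i → rel (F j) s) :
    ∃ F : Om1 → S, (∀ i, G i (F i)) ∧ ∀ j i, j < i → rel (F j) (F i) := by
  classical
  let F : Om1 → S := WellFounded.fix (wellFounded_lt (α := Om1)) fun i F' =>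
    if h : ∃ s, G i s ∧ ∀ j (hj : j < i), rel (F' j hj) s then h.choose
    else Classical.arbitrary S
  have hF : ∀ i, F i = if h : ∃ s, G i s ∧ ∀ j, j < i → rel (F j) s then h.choose
      else Classical.arbitrary S := fun i => by
    simp only [F]
    rw [WellFounded.fix_eq]
  have key : ∀ i, G i (F i) ∧ ∀ j, j < i → rel (F j) (F i) := by
    intro i
    induction i using WellFoundedLT.induction with
    | ind i ih =>
      have h1 : ∃ s, G i s ∧ ∀ j, j < i → rel (F j) s :=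
        h i F (fun j hj => (ih j hj).1) (fun j k hjk hk => (ih k hk).2 j hjk)
      have h2 : F i = h1.choose := by rw [hF i, dif_pos h1]
      rw [h2]
      exact h1.choose_spec
  exact ⟨F, fun i => (key i).1, fun j i hj => (key i).2 j hj⟩

end Rec

/-- decreasing sequences of length at most `ω₁` have lower bounds -/
def Closed2 (Q : Type) [Preorder Q] : Prop :=
  ∀ (I : Set Om1) (C : Om1 → Q) (q0 : Q), (∀ i ∈ I, ∀ j ∈ I, i < j → C j ≤ C i) →
    (∀ i ∈ I, C i ≤ q0) → ∃ q ≤ q0, ∀ i ∈ I, q ≤ C i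

section

variable {Q P : Type} [Preorder Q] [Preorder P]

/-- `φ` and `φ'` are the same sentence below `q` -/
def Tr (q : Q) (φ : Set (Q × P)) (φ' : Set P) : Prop := ∀ q' ≤ q, ∀ p, (q', p) ∈ φ ↔ p ∈ φ'

omit [Preorder P] in
theorem Tr.mono {q q' : Q} (h : q' ≤ q) {φ : Set (Q × P)} {φ' : Set P} (hφ : Tr q φ φ') :
    Tr q' φ φ' := fun q'' hq'' p => hφ q'' (hq''.trans h) p

theorem Tr.fnot {q : Q} {φ : Set (Q × P)} {φ' : Set P} (h : Tr q φ φ') : Tr q (fnot φ) (fnot φ') := by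
  intro q' hq' p
  constructor
  · intro h1 p' hp' h2
    exact h1 (q', p') ⟨le_rfl, hp'⟩ ((h q' hq' p').2 h2)
  · rintro h1 ⟨q'', p''⟩ ⟨hq'', hp''⟩ h2
    exact h1 p'' hp'' ((h q'' (le_trans hq'' hq') p'').1 h2)

omit [Preorder P] in
theorem Tr.fand {q : Q} {φ ψ : Set (Q × P)} {φ' ψ' : Set P} (h : Tr q φ φ') (h' : Tr q ψ ψ') :
    Tr q (fand φ ψ) (fand φ' ψ') := fun q' hq' p =>
  and_congr (h q' hq' p) (h' q' hq' p)

omit [Preorder P] in
theorem Tr.fall {q : Q} {ι : Sort*} {φ : ι → Set (Q × P)} {φ' : ι → Set P}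
    (h : ∀ i, Tr q (φ i) (φ' i)) : Tr q (fall φ) (fall φ') := fun q' hq' p =>
  forall_congr' fun i => h i q' hq' p

theorem Tr.fimp {q : Q} {φ ψ : Set (Q × P)} {φ' ψ' : Set P} (h : Tr q φ φ') (h' : Tr q ψ ψ') :
    Tr q (fimp φ ψ) (fimp φ' ψ') := Tr.fnot (Tr.fand h (Tr.fnot h'))

theorem Tr.fex {q : Q} {ι : Sort*} {φ : ι → Set (Q × P)} {φ' : ι → Set P}
    (h : ∀ i, Tr q (φ i) (φ' i)) : Tr q (fex φ) (fex φ') :=
  Tr.fnot (Tr.fall fun i => Tr.fnot (h i))

omit [Preorder P] in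
theorem Tr.fground (q : Q) (h : Prop) : Tr q (fground (P := Q × P) h) (fground h) :=
  fun _ _ _ => Iff.rfl

/-- the lift of a `P`-name -/
def lift (Q : Type) {P : Type} (N : Set P) : Set (Q × P) := {s | s.2 ∈ N}

theorem Tr.lift (q : Q) (N : Set P) : Tr q (meets (lift Q N)) (meets N) := by
  intro q' _ p
  constructor
  · intro h p' hp'
    obtain ⟨⟨q1, r⟩, ⟨_, hr⟩, ⟨q2, s⟩, hs, ⟨_, hrs⟩⟩ := h (q', p') ⟨le_rfl, hp'⟩
    exact ⟨r, hr, s, hs, hrs⟩
  · rintro h ⟨q'', p''⟩ ⟨hq'', hp''⟩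
    obtain ⟨r, hr, s, hs, hrs⟩ := h p'' hp''
    exact ⟨(q'', r), ⟨le_rfl, hr⟩, (q'', s), hs, ⟨le_rfl, hrs⟩⟩

theorem Tr.IsFun {q : Q} {X Y : Type} {R : X → Y → Set (Q × P)} {R' : X → Y → Set P}
    (h : ∀ x y, Tr q (meets (R x y)) (meets (R' x y))) : Tr q (IsFun R) (IsFun R') :=
  Tr.fand (Tr.fall fun x => Tr.fex fun y => h x y)
    (Tr.fall fun x => Tr.fall fun y => Tr.fall fun y' =>
      Tr.fimp (Tr.fand (h x y) (h x y')) (Tr.fground q _))

theorem Tr.IsOnto {q : Q} {X Y : Type} {R : X → Y → Set (Q × P)} {R' : X → Y → Set P}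
    (h : ∀ x y, Tr q (meets (R x y)) (meets (R' x y))) : Tr q (IsOnto R) (IsOnto R') :=
  Tr.fall fun y => Tr.fex fun x => h x y

/-- the condition decides the sentence -/
def Dec (φ : Set (Q × P)) (s : Q × P) : Prop := s ∈ φ ∨ s ∈ fnot φ

theorem Dec.down {φ : Set (Q × P)} (hφ : Down φ) {s t : Q × P} (h : Dec φ s) (hts : t ≤ s) :
    Dec φ t := h.imp (fun h => hφ s h t hts) (fun h => down_fnot _ s h t hts)

theorem exists_dec (φ : Set (Q × P)) (s : Q × P) : ∃ t ≤ s, Dec φ t := by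
  by_cases h : ∃ t ≤ s, t ∈ φ
  · obtain ⟨t, ht, h⟩ := h
    exact ⟨t, ht, Or.inl h⟩
  · push Not at h
    exact ⟨s, le_rfl, Or.inr h⟩

theorem exists_dense_dec (hQ : Closed2 Q) (hP : PCCC P) (φ : Set (Q × P)) (hφ : Down φ) (q0 : Q) :
    ∃ q ≤ q0, ∀ p, ∃ p' ≤ p, Dec φ (q, p') := by
  classical
  by_contra hcon
  push Not at hcon
  have : Nonempty (Q × P) := by
    obtain ⟨p, _⟩ := hcon q0 le_rfl
    exact ⟨(q0, p)⟩
  obtain ⟨F, hF1, hF2⟩ := exists_rec (S := Q × P)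
    (fun s t => t.1 ≤ s.1 ∧ ¬ ∃ r, r ≤ s.2 ∧ r ≤ t.2) (fun _ s => s.1 ≤ q0 ∧ Dec φ s) (by
      intro i F h1 h2
      obtain ⟨q, hq, hqF⟩ := hQ {j | j < i} (fun j => (F j).1) q0
        (fun j _ k hk hjk => (h2 j k hjk hk).1) (fun j hj => (h1 j hj).1)
      obtain ⟨p, hp⟩ := hcon q hq
      obtain ⟨⟨q', p'⟩, ⟨hq', hp'⟩, hdec⟩ := exists_dec φ (q, p)
      refine ⟨(q', p'), ⟨le_trans hq' hq, hdec⟩, fun j hj => ⟨le_trans hq' (hqF j hj), ?_⟩⟩
      rintro ⟨r, hr1, hr2⟩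
      refine hp r (le_trans hr2 hp') ?_
      exact (h1 j hj).2.down hφ (show (q, r) ≤ F j from ⟨hqF j hj, hr1⟩))
  have hinj : Function.Injective fun i => (F i).2 := by
    intro i j h
    by_contra hne
    rcases lt_or_gt_of_ne hne with h1 | h1
    · exact (hF2 i j h1).2 ⟨(F i).2, le_rfl, h.le⟩
    · exact (hF2 j i h1).2 ⟨(F i).2, h.le, le_rfl⟩
  have h3 : (Set.range fun i => (F i).2).Countable := by
    apply hP
    rintro _ ⟨i, rfl⟩ _ ⟨j, rfl⟩ hne ⟨r, h4, h5⟩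
    have hij : i ≠ j := fun h => hne (by rw [h])
    rcases lt_or_gt_of_ne hij with h1 | h1
    · exact (hF2 i j h1).2 ⟨r, h4, h5⟩
    · exact (hF2 j i h1).2 ⟨r, h5, h4⟩
  have h4 : (Set.univ : Set Om1).Countable := by
    refine Set.countable_of_injective_of_countable_image (f := fun i => (F i).2) hinj.injOn ?_
    rwa [Set.image_univ]
  rw [← Cardinal.le_aleph0_iff_set_countable, Cardinal.mk_univ, Cardinal.mk_ord_toType] at h4
  exact absurd h4 (not_le.2 Cardinal.aleph0_lt_aleph_one)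

/-- one name -/
theorem exists_name (hQ : Closed2 Q) (hP : PCCC P) (N : Set (Q × P)) (q0 : Q) :
    ∃ q ≤ q0, ∃ A : Set P, Tr q (meets N) (meets A) := by
  obtain ⟨q, hq, hdec⟩ := exists_dense_dec hQ hP (meets N) (down_meets N) q0
  refine ⟨q, hq, {p | (q, p) ∈ meets N}, fun q' hq' p => ⟨fun h p1 hp1 => ?_, fun h => ?_⟩⟩
  · obtain ⟨p2, hp2, h2⟩ := hdec p1
    rcases h2 with h2 | h2
    · exact ⟨p2, hp2, p2, h2, le_rfl⟩
    · exact absurd (down_meets N _ h (q', p2) ⟨le_rfl, le_trans hp2 hp1⟩)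
        (h2 (q', p2) ⟨hq', le_rfl⟩)
  · apply meets_of_dense
    rintro ⟨q3, p3⟩ ⟨h3, h4⟩
    obtain ⟨r, hr, s, hs, hrs⟩ := h p3 h4
    exact ⟨(q3, r), ⟨le_rfl, hr⟩, down_meets N _ hs (q3, r) ⟨le_trans h3 hq', hrs⟩⟩

/-- `ℵ₁` names -/
theorem exists_names (hQ : Closed2 Q) (hP : PCCC P) {ι : Type} (hι : #ι ≤ ℵ₁)
    (N : ι → Set (Q × P)) (q0 : Q) :
    ∃ q ≤ q0, ∃ A : ι → Set P, ∀ i, Tr q (meets (N i)) (meets (A i)) := by
  classical
  rcases isEmpty_or_nonempty ι with he | hne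
  · exact ⟨q0, le_rfl, fun i => (he.false i).elim, fun i => (he.false i).elim⟩
  obtain ⟨e, he⟩ : ∃ e : Om1 → ι, Function.Surjective e := by
    have h1 : #ι ≤ #Om1 := by
      rw [Cardinal.mk_ord_toType]
      exact hι
    obtain ⟨f⟩ := h1
    exact ⟨Function.invFun f, Function.invFun_surjective f.injective⟩
  have : Nonempty Q := ⟨q0⟩
  obtain ⟨F, hF1, hF2⟩ := exists_rec (S := Q) (fun q q' => q' ≤ q)
    (fun i q => q ≤ q0 ∧ ∃ A : Set P, Tr q (meets (N (e i))) (meets A)) (by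
      intro i F h1 h2
      obtain ⟨q, hq, hqF⟩ := hQ {j | j < i} F q0 (fun j _ k hk hjk => h2 j k hjk hk)
        (fun j hj => (h1 j hj).1)
      obtain ⟨q', hq', A, hA⟩ := exists_name hQ hP (N (e i)) q
      exact ⟨q', ⟨hq'.trans hq, A, hA⟩, fun j hj => hq'.trans (hqF j hj)⟩)
  obtain ⟨q, hq, hqF⟩ := hQ Set.univ F q0 (fun j _ k _ hjk => hF2 j k hjk)
    (fun j _ => (hF1 j).1)
  choose i hi using he
  choose hF1 A hA using hF1
  refine ⟨q, hq, fun x => A (i x), fun x => ?_⟩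
  have h1 := (hA (i x)).mono (hqF _ (Set.mem_univ _))
  rwa [hi x] at h1

/-- The product forces Martin's axiom. -/
theorem martinHolds_prod (hQ : Closed2 Q) (hP : PCCC P) (hMA : ∀ p : P, p ∈ MartinHolds P Om1)
    (s : Q × P) : s ∈ MartinHolds (Q × P) Om1 := by
  intro R D
  rw [mem_fimp]
  rintro ⟨q0, p0⟩ _ ⟨hpre, hccc, hD⟩
  have hcard : #(Om1 × Om1) ≤ ℵ₁ := by
    rw [Cardinal.mk_prod, Cardinal.lift_id, Cardinal.mk_ord_toType,
      Cardinal.mul_eq_self (Cardinal.aleph0_le_aleph 1)]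
  obtain ⟨q1, hq1, R', hR'⟩ := exists_names hQ hP hcard (fun i => R i.1 i.2) q0
  obtain ⟨q2, hq2, D', hD'⟩ := exists_names hQ hP hcard (fun i => D i.1 i.2) q1
  have hR : ∀ x y, Tr q2 (meets (R x y)) (meets (R' (x, y))) := fun x y =>
    (hR' (x, y)).mono hq2
  have hDt : ∀ x y, Tr q2 (meets (D x y)) (meets (D' (x, y))) := fun x y => hD' (x, y)
  have hle : ((q2, p0) : Q × P) ≤ (q0, p0) := ⟨hq2.trans hq1, le_rfl⟩
  have tpre : Tr q2 (IsPreN R) (IsPreN fun x y => R' (x, y)) :=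
    Tr.fand (Tr.fall fun x => hR x x) (Tr.fall fun x => Tr.fall fun y => Tr.fall fun z =>
      Tr.fimp (Tr.fand (hR x y) (hR y z)) (hR x z))
  have tdense : Tr q2 (fall fun i => IsDenseN R (D i))
      (fall fun i => IsDenseN (fun x y => R' (x, y)) fun x => D' (i, x)) :=
    Tr.fall fun i => Tr.fall fun x => Tr.fex fun y => Tr.fand (hDt i y) (hR y x)
  have h1 : p0 ∈ IsPreN fun x y => R' (x, y) :=
    (tpre q2 le_rfl p0).1 (down_IsPreN R _ hpre _ hle)
  have h2 : p0 ∈ fall fun i => IsDenseN (fun x y => R' (x, y)) fun x => D' (i, x) :=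
    (tdense q2 le_rfl p0).1 (down_fall (fun i => down_IsDenseN R (D i)) _ hD _ hle)
  have h3 : p0 ∈ CCCN fun x y => R' (x, y) := by
    intro Z f
    have h4 := down_CCCN R _ hccc _ hle (fun a => lift Q (Z a)) (fun a x => lift Q (f a x))
    have t4 : Tr q2 (fimp (fand (UnbN fun a => lift Q (Z a)) (IsFun fun a x => lift Q (f a x)))
        (fex fun a => fex fun b => fand (fground (a ≠ b)) (fand (meets (lift Q (Z a)))
          (fand (meets (lift Q (Z b))) (fex fun x => fex fun y =>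
            fand (meets (lift Q (f a x))) (fand (meets (lift Q (f b y))) (CompatN R x y)))))))
        (fimp (fand (UnbN Z) (IsFun f)) (fex fun a => fex fun b =>
          fand (fground (a ≠ b)) (fand (meets (Z a)) (fand (meets (Z b))
            (fex fun x => fex fun y =>
              fand (meets (f a x)) (fand (meets (f b y))
                (CompatN (fun x y => R' (x, y)) x y))))))) := by
      refine Tr.fimp (Tr.fand ?_ (Tr.IsFun fun x y => Tr.lift _ _)) ?_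
      · exact Tr.fall fun a => Tr.fex fun b => Tr.fand (Tr.fground _ _) (Tr.lift _ _)
      · exact Tr.fex fun a => Tr.fex fun b => Tr.fand (Tr.fground _ _) (Tr.fand (Tr.lift _ _)
          (Tr.fand (Tr.lift _ _) (Tr.fex fun x => Tr.fex fun y => Tr.fand (Tr.lift _ _)
            (Tr.fand (Tr.lift _ _) (Tr.fex fun z => Tr.fand (hR z x) (hR z y))))))
    exact (t4 q2 le_rfl p0).1 h4
  refine ⟨(q2, p0), hle, ?_⟩
  have h5 := hMA p0 (fun x y => R' (x, y)) (fun i x => D' (i, x))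
  rw [mem_fimp] at h5
  rw [mem_fex]
  rintro ⟨q3, p3⟩ ⟨hq3, hp3⟩
  obtain ⟨p4, hp4, h6⟩ := h5 p3 hp3 ⟨down_IsPreN _ _ h1 _ hp3, down_CCCN _ _ h3 _ hp3,
    down_fall (fun i => down_IsDenseN _ _) _ h2 _ hp3⟩
  obtain ⟨p5, hp5, F, hF⟩ := mem_fex.1 h6 p4 le_rfl
  refine ⟨(q3, p5), ⟨le_rfl, hp5.trans hp4⟩, fun x => lift Q (F x), ?_⟩
  have t6 : Tr q2 (fand (IsFilterN R fun x => lift Q (F x))
      (fall fun i => fex fun x => fand (meets (lift Q (F x))) (meets (D i x))))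
      (fand (IsFilterN (fun x y => R' (x, y)) F)
      (fall fun i => fex fun x => fand (meets (F x)) (meets (D' (i, x))))) := by
    refine Tr.fand (Tr.fand (Tr.fex fun x => Tr.lift _ _) (Tr.fand ?_ ?_)) ?_
    · exact Tr.fall fun x => Tr.fall fun y => Tr.fimp (Tr.fand (Tr.lift _ _) (hR x y))
        (Tr.lift _ _)
    · exact Tr.fall fun x => Tr.fall fun y => Tr.fimp (Tr.fand (Tr.lift _ _) (Tr.lift _ _))
        (Tr.fex fun z => Tr.fand (Tr.lift _ _) (Tr.fand (hR z x) (hR z y)))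
    · exact Tr.fall fun i => Tr.fex fun x => Tr.fand (Tr.lift _ _) (hDt i x)
  exact (t6 q3 hq3 p5).2 hF

/-- The product preserves `ω₁`. -/
theorem omegaOne_prod (hQ : Closed2 Q) (hP : PCCC P) (s : Q × P) :
    s ∈ OmegaOnePreserved (Q × P) := by
  rintro ⟨q0, p0⟩ _ h
  obtain ⟨⟨q1, p1⟩, ⟨hq1, hp1⟩, R, hR⟩ := mem_fex.1 h (q0, p0) le_rfl
  have hcard : #(ℕ × Om1) ≤ ℵ₁ := by
    rw [Cardinal.mk_prod, Cardinal.lift_id, Cardinal.lift_id, Cardinal.mk_ord_toType,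
      Cardinal.mk_nat]
    refine (mul_le_mul' (Cardinal.aleph0_le_aleph 1) le_rfl).trans ?_
    rw [Cardinal.mul_eq_self (Cardinal.aleph0_le_aleph 1)]
  obtain ⟨q2, hq2, R', hR'⟩ := exists_names hQ hP hcard (fun i => R i.1 i.2) q1
  have t : Tr q2 (fand (IsFun R) (IsOnto R))
      (fand (IsFun fun x y => R' (x, y)) (IsOnto fun x y => R' (x, y))) :=
    Tr.fand (Tr.IsFun fun x y => hR' (x, y)) (Tr.IsOnto fun x y => hR' (x, y))
  have h1 : p1 ∈ fand (IsFun fun x y => R' (x, y)) (IsOnto fun x y => R' (x, y)) :=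
    (t q2 le_rfl p1).1 ((down_fand (down_IsFun R) (down_IsOnto R)) _ hR _ ⟨hq2, le_rfl⟩)
  have h2 : p1 ∈ fex fun R : ℕ → Om1 → Set P => fand (IsFun R) (IsOnto R) :=
    mem_fex_of_mem _ (down_fand (down_IsFun _) (down_IsOnto _)) h1
  exact hP.omegaOnePreserved p1 p1 le_rfl h2

end

end Pool.Agent.W910.FC
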